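import Mathlib
import Pool.Agent.H4.Keyw

namespace Pool.Agent.Results.MP_53071c_co.Iso

/-- The block of `u` in positions `i, …, i + m` (counted from `0`) is `a` or its negation. -/
def Match {m n : ℕ} (a : Fin (m + 1) → Bool) (u : Fin n → Bool) (i : ℕ) (h : i + m < n) : Prop :=
  (∀ k : Fin (m + 1), u ⟨i + k.1, by omega⟩ = a k) ∨
    (∀ k : Fin (m + 1), u ⟨i + k.1, by omega⟩ = !a k)

instance {m n : ℕ} (a : Fin (m + 1) → Bool) (u : Fin n → Bool) (i : ℕ) (h : i + m < n) :
    Decidable (Match a u i h) := by unfold Match; infer_instance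

/-- The substitution map at position `i`. -/
def phi {m n : ℕ} (a : Fin (m + 1) → Bool) (i : ℕ) (h : i + m < n) (u : Fin n → Bool) :
    Fin n → Bool :=
  if Match a u i h then fun p => if i ≤ p.1 ∧ p.1 ≤ i + m then !u p else u p else u

/-- The keyword substitution graph on binary words of length `n`. -/
def KG {m : ℕ} (a : Fin (m + 1) → Bool) (n : ℕ) : SimpleGraph (Fin n → Bool) :=
  SimpleGraph.fromRel fun u v => ∃ (i : ℕ) (h : i + m < n), v = phi a i h u

/-- One negation, seminegation or reversal (positions are counted from `0`, so the even positions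
of the problem are the odd indices). -/
def Step {m : ℕ} (a b : Fin (m + 1) → Bool) : Prop :=
  (b = fun k => !a k) ∨ (b = fun k => if k.1 % 2 = 1 then !a k else a k) ∨ (b = fun k => a k.rev)

open Pool.Agent.H4.Keyw

variable {n : ℕ}

def D (u : Fin n → Bool) : Fin n → Bool :=
  fun p => xor (if p.1 = 0 then false else g u (p.1 - 1)) (u p)

theorem g_D (u : Fin n → Bool) (k : ℕ) (h : k + 1 < n) :
    g (D u) (k + 1) = xor (g u k) (g u (k + 1)) := by
  simp [g, D, h]

theorem D_inj : Function.Injective (D (n := n)) := by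
  intro u v h
  apply g_ext
  intro k
  induction k with
  | zero =>
    intro hk
    have := congrFun h ⟨0, hk⟩
    simpa [D, g, hk] using this
  | succ k ih =>
    intro hk
    have e := g_D u k hk
    rw [h, g_D v k hk, ih (by omega)] at e
    revert e
    cases g v k <;> cases g v (k + 1) <;> cases g u (k + 1) <;> simp

def kw (c : Bool) : Fin (4 + 1) → Bool := ![!c, c, false, false, false]

theorem match_iff (c : Bool) (u : Fin n → Bool) (i : ℕ) (h : i + 4 < n) :
    Match (kw c) u i h ↔ Occ c (D u) i := by
  unfold Match Occ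
  rw [g_D u i (by omega), g_D u (i + 1) (by omega), g_D u (i + 2) (by omega),
    g_D u (i + 3) (by omega)]
  simp only [← g_val u, Fin.forall_fin_succ, kw]
  simp only [Fin.val_zero, Fin.val_succ, Nat.add_zero, zero_add, Matrix.cons_val_zero,
    Matrix.cons_val_succ, IsEmpty.forall_iff, and_true, show i + 5 ≤ n from h, true_and]
  rw [show i + (1 + 1) = i + 2 by omega, show i + (1 + 1 + 1) = i + 3 by omega,
    show i + (1 + 1 + 1 + 1) = i + 4 by omega, show i + 1 + 1 = i + 2 by omega,
    show i + 2 + 1 = i + 3 by omega, show i + 3 + 1 = i + 4 by omega]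
  cases c <;> cases g u i <;> cases g u (i + 1) <;> cases g u (i + 2) <;> cases g u (i + 3) <;>
    cases g u (i + 4) <;> simp

theorem D_flip (u : Fin n → Bool) (i : ℕ) :
    D (fun p => if i ≤ p.1 ∧ p.1 ≤ i + 4 then !u p else u p) = mv i (D u) := by
  funext p
  obtain ⟨p, hp⟩ := p
  simp only [D, mv]
  rcases p with _ | p
  · by_cases e : i = 0
    · simp [e]
    · have : ¬ (0 = i) := fun h => e h.symm
      simp [e, this]
  · have hp' : p < n := by omega
    simp only [g, hp', dite_true, Nat.add_sub_cancel, Nat.succ_ne_zero, if_false]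
    split_ifs <;> first | omega | simp

theorem rel_iff (c : Bool) (u v : Fin n → Bool) (huv : u ≠ v) :
    (∃ (i : ℕ) (h : i + 4 < n), v = phi (kw c) i h u) ↔ ∃ j, Occ c (D u) j ∧ D v = mv j (D u) := by
  constructor
  · rintro ⟨i, h, e⟩
    unfold phi at e
    split_ifs at e with hm
    · exact ⟨i, (match_iff c u i h).1 hm, by rw [e, D_flip]⟩
    · exact absurd e.symm huv
  · rintro ⟨j, ho, e⟩
    have h : j + 4 < n := ho.1
    refine ⟨j, h, ?_⟩
    unfold phi
    rw [if_pos ((match_iff c u j h).2 ho)]
    apply D_inj
    rw [e, D_flip]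

theorem iso (n : ℕ) : Nonempty (KG (kw false) n ≃g KG (kw true) n) := by
  obtain ⟨F, hF⟩ := main n
  let E : (Fin n → Bool) ≃ (Fin n → Bool) :=
    Equiv.ofBijective D (Finite.injective_iff_bijective.1 D_inj)
  have hE : ∀ u, D ((E.trans (F.trans E.symm)) u) = F (D u) := fun u => E.apply_symm_apply _
  have key : ∀ u v : Fin n → Bool, (∃ j, Occ true (F u) j ∧ F v = mv j (F u)) ↔
      ∃ j, Occ false u j ∧ v = mv j u := by
    intro u v
    refine exists_congr fun j => ?_
    constructor
    · rintro ⟨h1, h2⟩
      have h := (hF u j).1.2 h1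
      exact ⟨h, F.injective (by rw [h2, (hF u j).2 h])⟩
    · rintro ⟨h1, h2⟩
      exact ⟨(hF u j).1.1 h1, by rw [h2, (hF u j).2 h1]⟩
  refine ⟨{ toEquiv := E.trans (F.trans E.symm), map_rel_iff' := ?_ }⟩
  intro u v
  simp only [KG, SimpleGraph.fromRel_adj]
  by_cases huv : u = v
  · simp [huv]
  · have hne : (E.trans (F.trans E.symm)) u ≠ (E.trans (F.trans E.symm)) v :=
      fun h => huv ((E.trans (F.trans E.symm)).injective h)
    rw [rel_iff true _ _ hne, rel_iff true _ _ hne.symm, rel_iff false _ _ huv,
      rel_iff false _ _ (Ne.symm huv), hE, hE, key, key]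
    exact and_congr_left fun _ => ⟨fun _ => huv, fun _ => hne⟩

def orb : List (Fin (4 + 1) → Bool) :=
  [![true, false, false, false, false], ![false, true, true, true, true],
   ![false, false, false, false, true], ![true, true, true, true, false],
   ![true, true, false, true, false], ![false, false, true, false, true],
   ![false, true, false, true, true], ![true, false, true, false, false]]

theorem orb_closed : ∀ a ∈ orb, (fun k => !a k) ∈ orb ∧
    (fun k => if k.1 % 2 = 1 then !a k else a k) ∈ orb ∧ (fun k => a k.rev) ∈ orb := by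
  decide

theorem result : ∃ (a b : Fin (4 + 1) → Bool),
    a = ![true, false, false, false, false] ∧ b = ![false, true, false, false, false] ∧
    (∀ n, Nonempty (KG a n ≃g KG b n)) ∧ ¬ Relation.ReflTransGen Step a b := by
  refine ⟨kw false, kw true, rfl, rfl, iso, fun h => ?_⟩
  have : ∀ b, Relation.ReflTransGen Step (kw false) b → b ∈ orb := by
    intro b hb
    induction hb with
    | refl => decide
    | tail _ hs ih =>
      rcases hs with rfl | rfl | rfl
      · exact (orb_closed _ ih).1
      · exact (orb_closed _ ih).2.1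
      · exact (orb_closed _ ih).2.2
  exact absurd (this _ h) (by decide)

end Pool.Agent.Results.MP_53071c_co.Iso
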